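import Mathlib

set_option autoImplicit false

/-! If `R G` is a domain for one domain `R`, so are `ℤ G` and `ℚ G` (helper634). -/

namespace Pool.Agent.Results.MP_b3f03e_al.RationalCoefficients

universe u v

private lemma prim {G : Type v} [Group G] (p : ℕ) (hp : p.Prime) (g : G) : ∀ (n : ℕ)
    (a : MonoidAlgebra ℤ G), a.coeff g ≠ 0 → (a.coeff g).natAbs ≤ n →
    ∃ (c : ℤ) (a' : MonoidAlgebra ℤ G), c ≠ 0 ∧ a = c • a' ∧ ∃ h : G, ¬ (p : ℤ) ∣ a'.coeff h := by
  intro n
  induction n with
  | zero =>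
    intro a ha hn
    exact absurd (Int.natAbs_eq_zero.1 (by omega)) ha
  | succ n ih =>
    intro a ha hn
    by_cases hd : ∀ h : G, (p : ℤ) ∣ a.coeff h
    · let a' : MonoidAlgebra ℤ G :=
        .ofCoeff (Finsupp.mapRange (fun x : ℤ => x / p) (by simp) a.coeff)
      have h1' : ∀ h, a.coeff h = (p : ℤ) * a'.coeff h := by
        intro h
        show a.coeff h = (p : ℤ) * (a.coeff h / p)
        exact (Int.mul_ediv_cancel' (hd h)).symm
      have h1 : a = (p : ℤ) • a' := by
        apply MonoidAlgebra.coeff_injective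
        apply Finsupp.ext
        intro h
        rw [h1' h]
        rfl
      have h2 : a.coeff g = (p : ℤ) * a'.coeff g := h1' g
      have h3 : a'.coeff g ≠ 0 := by
        intro h0
        rw [h0, mul_zero] at h2
        exact ha h2
      have h4 : (a'.coeff g).natAbs ≤ n := by
        have h5 : (a.coeff g).natAbs = p * (a'.coeff g).natAbs := by
          rw [h2, Int.natAbs_mul, Int.natAbs_natCast]
        have h6 : 0 < (a'.coeff g).natAbs := Int.natAbs_pos.2 h3
        have := hp.two_le
        nlinarith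
      obtain ⟨c, a'', hc, e, h⟩ := ih a' h3 h4
      refine ⟨p * c, a'', mul_ne_zero (by exact_mod_cast hp.ne_zero) hc, ?_, h⟩
      rw [h1, e, smul_smul]
    · push Not at hd
      exact ⟨1, a, one_ne_zero, (one_smul _ _).symm, hd⟩

private lemma ex_ne {R : Type u} [Semiring R] {G : Type v} {a : MonoidAlgebra R G} (ha : a ≠ 0) :
    ∃ g, a.coeff g ≠ 0 := by
  by_contra hall
  push Not at hall
  exact ha (MonoidAlgebra.coeff_eq_zero.1 (Finsupp.ext hall))

private lemma int_case {R : Type u} [CommRing R] [IsDomain R] {G : Type v} [Group G]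
    (h : NoZeroDivisors (MonoidAlgebra R G)) : NoZeroDivisors (MonoidAlgebra ℤ G) := by
  constructor
  intro a b hab
  by_contra hc
  push Not at hc
  obtain ⟨ha, hb⟩ := hc
  let φ : MonoidAlgebra ℤ G →+* MonoidAlgebra R G :=
    MonoidAlgebra.mapRingHom G (Int.castRingHom R)
  have hφ : ∀ (x : MonoidAlgebra ℤ G) (g : G), (φ x).coeff g = ((x.coeff g : ℤ) : R) :=
    fun x g => rfl
  obtain ⟨g, hg⟩ := ex_ne ha
  obtain ⟨g', hg'⟩ := ex_ne hb
  -- primitive parts
  have key : ∃ a' b' : MonoidAlgebra ℤ G, a' * b' = 0 ∧ φ a' ≠ 0 ∧ φ b' ≠ 0 := by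
    rcases CharP.exists R with ⟨p, hp⟩
    rcases CharP.char_is_prime_or_zero R p with hpp | rfl
    · obtain ⟨c, a', hc0, ea, x, hx⟩ := prim p hpp g _ a hg le_rfl
      obtain ⟨c', b', hc0', eb, y, hy⟩ := prim p hpp g' _ b hg' le_rfl
      refine ⟨a', b', ?_, ?_, ?_⟩
      · rw [ea, eb, smul_mul_smul_comm] at hab
        obtain h0 | h0 := em (a' * b' = 0)
        · exact h0
        · exfalso
          obtain ⟨z, hz⟩ := ex_ne h0
          have h5 : (c * c') * (a' * b').coeff z = 0 := by
            have := congrArg (fun w : MonoidAlgebra ℤ G => w.coeff z) hab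
            exact this
          rcases mul_eq_zero.1 h5 with h6 | h6
          · exact (mul_ne_zero hc0 hc0') h6
          · exact hz h6
      · intro h0
        have h1 := hφ a' x
        rw [h0] at h1
        exact hx ((CharP.intCast_eq_zero_iff R p _).1 h1.symm)
      · intro h0
        have h1 := hφ b' y
        rw [h0] at h1
        exact hy ((CharP.intCast_eq_zero_iff R p _).1 h1.symm)
    · have : CharZero R := CharP.charP_to_charZero R
      refine ⟨a, b, hab, ?_, ?_⟩
      · intro h0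
        have h1 := hφ a g
        rw [h0] at h1
        exact hg (Int.cast_eq_zero.1 h1.symm)
      · intro h0
        have h1 := hφ b g'
        rw [h0] at h1
        exact hg' (Int.cast_eq_zero.1 h1.symm)
  obtain ⟨a', b', h0, h1, h2⟩ := key
  have h3 : φ a' * φ b' = 0 := by rw [← map_mul, h0, map_zero]
  rcases mul_eq_zero.1 h3 with h4 | h4
  · exact h1 h4
  · exact h2 h4

private lemma denom {G : Type v} [Group G] (a : MonoidAlgebra ℚ G) : ∃ (N : ℤ)
    (a' : MonoidAlgebra ℤ G), N ≠ 0 ∧ ∀ g, (N : ℚ) * a.coeff g = ((a'.coeff g : ℤ) : ℚ) := by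
  classical
  let N : ℤ := ∏ g ∈ a.coeff.support, ((a.coeff g).den : ℤ)
  have hN : N ≠ 0 :=
    Finset.prod_ne_zero_iff.2 (fun g _ => by exact_mod_cast (a.coeff g).den_ne_zero)
  have hint : ∀ g, ∃ z : ℤ, (N : ℚ) * a.coeff g = (z : ℚ) := by
    intro g
    by_cases hg : g ∈ a.coeff.support
    · refine ⟨(∏ x ∈ a.coeff.support.erase g, ((a.coeff x).den : ℤ)) * (a.coeff g).num, ?_⟩
      have e : N = ((a.coeff g).den : ℤ) *
          ∏ x ∈ a.coeff.support.erase g, ((a.coeff x).den : ℤ) :=
        (Finset.mul_prod_erase a.coeff.support (fun x => ((a.coeff x).den : ℤ)) hg).symm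
      have e2 : ((a.coeff g).den : ℚ) * a.coeff g = (a.coeff g).num :=
        Rat.den_mul_eq_num (a.coeff g)
      rw [e]
      push_cast
      rw [← e2]
      ring
    · refine ⟨0, ?_⟩
      rw [Finsupp.notMem_support_iff.1 hg]
      simp
  refine ⟨N, .ofCoeff (Finsupp.mapRange (fun q : ℚ => ⌊(N : ℚ) * q⌋) (by simp) a.coeff), hN,
    fun g => ?_⟩
  obtain ⟨z, hz⟩ := hint g
  show (N : ℚ) * a.coeff g = ((⌊(N : ℚ) * a.coeff g⌋ : ℤ) : ℚ)
  rw [hz, Int.floor_intCast]

private lemma rat_case {G : Type v} [Group G] (h : NoZeroDivisors (MonoidAlgebra ℤ G)) :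
    NoZeroDivisors (MonoidAlgebra ℚ G) := by
  constructor
  intro a b hab
  obtain ⟨N, a', hN, ha'⟩ := denom a
  obtain ⟨N', b', hN', hb'⟩ := denom b
  let φ : MonoidAlgebra ℤ G →+* MonoidAlgebra ℚ G :=
    MonoidAlgebra.mapRingHom G (Int.castRingHom ℚ)
  have hφa : φ a' = (N : ℚ) • a := by
    apply MonoidAlgebra.coeff_injective
    exact Finsupp.ext (fun g => (ha' g).symm)
  have hφb : φ b' = (N' : ℚ) • b := by
    apply MonoidAlgebra.coeff_injective
    exact Finsupp.ext (fun g => (hb' g).symm)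
  have hinj : ∀ x : MonoidAlgebra ℤ G, φ x = 0 → x = 0 := by
    intro x hx
    refine MonoidAlgebra.coeff_eq_zero.1 (Finsupp.ext (fun g => ?_))
    have h1 : ((x.coeff g : ℤ) : ℚ) = (φ x).coeff g := rfl
    rw [hx] at h1
    exact Int.cast_eq_zero.1 h1
  have h0 : a' * b' = 0 := by
    apply hinj
    rw [map_mul, hφa, hφb, smul_mul_smul_comm, hab, smul_zero]
  rcases mul_eq_zero.1 h0 with h1 | h1
  · left
    rw [h1, map_zero] at hφa
    rcases smul_eq_zero.1 hφa.symm with h2 | h2
    · exact absurd (Int.cast_eq_zero.1 h2) hN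
    · exact h2
  · right
    rw [h1, map_zero] at hφb
    rcases smul_eq_zero.1 hφb.symm with h2 | h2
    · exact absurd (Int.cast_eq_zero.1 h2) hN'
    · exact h2

/-- If the group ring `R G` has no zero divisors for one integral domain `R`, then `ℤ G` and
`ℚ G` have no zero divisors. -/
theorem result (R : Type u) [CommRing R] [IsDomain R] (G : Type v) [Group G]
    (h : NoZeroDivisors (MonoidAlgebra R G)) :
    NoZeroDivisors (MonoidAlgebra ℤ G) ∧ NoZeroDivisors (MonoidAlgebra ℚ G) :=
  ⟨int_case h, rat_case (int_case h)⟩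

end Pool.Agent.Results.MP_b3f03e_al.RationalCoefficients
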